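import Pool.Agent.TH894.NE4
import Pool.Agent.X22.DC

/-!
# Bijective Frobenius on the top cohomology of products of Calabi–Yau double covers of projective spaces, for almost all members of arbitrarily thin families

Nothing is used besides Mathlib in the statement.
-/

set_option autoImplicit false

namespace Pool.Agent.Results.MP_44c6a0_ag.FewDigitProducts

open Finset MvPolynomial

/-- The number of the solutions `(x, w)` modulo `p` of `w ^ 2 = f (x_1, ..., x_n) + m (x_1 ⋯ x_n) ^ 2`. If `f` is a form of degree `2 n`, it is `1 + (p - 1) #X (𝔽_p)`, where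
`X : w ^ 2 = f + m (x_1 ⋯ x_n) ^ 2` is the double cover of `ℙ ^ (n - 1)`. -/
noncomputable def points (p : ℕ) {n : ℕ} (f : MvPolynomial (Fin n) ℤ) (m : ℕ) : ℕ :=
  Nat.card {P : (Fin n → ZMod p) × ZMod p // P.2 ^ 2 = aeval P.1 f + (m : ZMod p) * (∏ i, P.1 i) ^ 2}

/-- The digit number `i` (counted from the right, beginning with `0`) of `n` in base `b`. -/
def digit (b i n : ℕ) : ℕ := n / b ^ i % b

/-- The number which arises from the number `N` with at most `K` digits in base `b`, if for every `i ∈ S`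
the digit number `i` is replaced by `f i`. -/
def change (b K N : ℕ) (f : ℕ → ℕ) (S : Finset ℕ) : ℕ :=
  ∑ i ∈ range K, (if i ∈ S then f i else digit b i N) * b ^ i

open Classical in
/-- The number of the choices of `s l` of `K l` positions for all `l < d` for which the vector of the numbers obtained by
changing the digits of the `N l` at the chosen positions (according to `f l`) does not have the property `E`. -/
noncomputable def exceptions {d : ℕ} (b : ℕ) (K s N : Fin d → ℕ) (f : Fin d → ℕ → ℕ) (E : (Fin d → ℕ) → Prop) : ℕ :=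
  ((Fintype.piFinset (fun l => powersetCard (s l) (range (K l)))).filter
    (fun S => ¬ E (fun l => change b (K l) (N l) (f l) (S l)))).card

open Pool.Agent.X22.DC (card_dc)

section
variable {p : ℕ} [hf : Fact p.Prime] {n : ℕ}

lemma sum_top (h2 : p ≠ 2) : ∑ x : Fin n → ZMod p, ((∏ i, x i) ^ 2) ^ (p / 2) = (-1 : ZMod p) ^ n := by
  have hp2 : 2 * (p / 2) = p - 1 := by
    have := hf.out.eq_two_or_odd
    omega
  have h1 : ∀ x : Fin n → ZMod p, ((∏ i, x i) ^ 2) ^ (p / 2) = ∏ i, x i ^ (p - 1) := by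
    intro x
    rw [← pow_mul, hp2, ← prod_pow]
  have h3 : ∑ t : ZMod p, t ^ (p - 1) = (-1 : ZMod p) := by
    have h4 : ∀ t : ZMod p, t ^ (p - 1) = if t = 0 then 0 else 1 := by
      intro t
      split_ifs with h0
      · rw [h0, zero_pow]
        have := hf.out.one_lt
        omega
      · exact ZMod.pow_card_sub_one_eq_one h0
    rw [sum_congr rfl (fun t _ => h4 t), ← sum_filter_add_sum_filter_not univ (fun t : ZMod p => t = 0)]
    rw [sum_congr rfl (g := fun _ => (0 : ZMod p)) (fun t ht => by rw [if_pos (mem_filter.1 ht).2]), sum_const_zero, zero_add,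
      sum_congr rfl (g := fun _ => (1 : ZMod p)) (fun t ht => by rw [if_neg (mem_filter.1 ht).2]), sum_const, nsmul_eq_mul, mul_one]
    have h5 : (univ.filter (fun t : ZMod p => ¬ t = 0)).card = p - 1 := by
      rw [filter_ne', card_erase_of_mem (mem_univ _), card_univ, ZMod.card]
    rw [h5, Nat.cast_sub hf.out.one_lt.le]
    simp
  have h6 : ∏ _i : Fin n, ∑ t : ZMod p, t ^ (p - 1) = ∑ x : Fin n → ZMod p, ∏ i, x i ^ (p - 1) := by
    rw [prod_univ_sum, Fintype.piFinset_univ]
  rw [sum_congr rfl (fun x _ => h1 x), ← h6, h3, prod_const, card_univ, Fintype.card_fin]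

/-- at most half of the residue classes are bad -/
lemma bad_card (h2 : p ≠ 2) (hn : 1 ≤ n) (f : MvPolynomial (Fin n) ℤ) (D : DecidablePred fun m => p ∣ points p f m) :
    (@Finset.filter ℕ (fun m => p ∣ points p f m) D (range p)).card ≤ p / 2 := by
  have h3 : ringChar (ZMod p) ≠ 2 := by
    rw [ZMod.ringChar_zmod_n]
    exact h2
  obtain ⟨Q, hQ⟩ : ∃ Q : Polynomial (ZMod p), Q = ∑ x : Fin n → ZMod p,
      (Polynomial.C (aeval x f) + Polynomial.C ((∏ i, x i) ^ 2) * Polynomial.X) ^ (p / 2) := ⟨_, rfl⟩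
  have hdeg1 : ∀ x : Fin n → ZMod p, (Polynomial.C (aeval x f) + Polynomial.C ((∏ i, x i) ^ 2) * Polynomial.X : Polynomial (ZMod p)).natDegree ≤ 1 := by
    intro x
    rw [add_comm]
    exact Polynomial.natDegree_linear_le
  have hdeg : Q.natDegree ≤ p / 2 := by
    rw [hQ]
    apply Polynomial.natDegree_sum_le_of_forall_le
    intro x _
    refine (Polynomial.natDegree_pow_le_of_le (p / 2) (hdeg1 x)).trans ?_
    rw [mul_one]
  have hcoef : Q.coeff (p / 2) = (-1) ^ n := by
    rw [hQ, Polynomial.finset_sum_coeff, ← sum_top (n := n) h2]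
    apply sum_congr rfl
    intro x _
    have := Polynomial.coeff_pow_of_natDegree_le (hdeg1 x) (m := p / 2)
    rw [mul_one] at this
    rw [this]
    congr 1
    rw [Polynomial.coeff_add, Polynomial.coeff_C, if_neg one_ne_zero, Polynomial.coeff_C_mul, Polynomial.coeff_X_one, mul_one, zero_add]
  have hQ0 : Q ≠ 0 := by
    intro h0
    rw [h0, Polynomial.coeff_zero] at hcoef
    exact pow_ne_zero n (neg_ne_zero.2 one_ne_zero) hcoef.symm
  have hev : ∀ m : ℕ, ((points p f m : ℕ) : ZMod p) = Q.eval (m : ZMod p) := by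
    intro m
    have e1 := card_dc h3 (Fin n → ZMod p) (fun _ => True) (fun x => aeval x f + (m : ZMod p) * (∏ i, x i) ^ 2)
    have e2 : Nat.card {Q : (Fin n → ZMod p) × ZMod p // True ∧ Q.2 ^ 2 = aeval Q.1 f + (m : ZMod p) * (∏ i, Q.1 i) ^ 2} = points p f m := by
      unfold points
      simp only [true_and]
    rw [e2] at e1
    have e3 : Nat.card {x : Fin n → ZMod p // True} = p ^ n := by
      rw [Nat.card_eq_fintype_card, Fintype.card_subtype]
      simp
    rw [e3] at e1
    have e4 := congrArg (fun z : ℤ => (z : ZMod p)) e1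
    push_cast at e4
    rw [CharP.cast_eq_zero (ZMod p) p, zero_pow (by omega), zero_add] at e4
    rw [e4, hQ, Polynomial.eval_finset_sum, filter_true]
    apply sum_congr rfl
    intro x _
    rw [Polynomial.eval_pow, Polynomial.eval_add, Polynomial.eval_C, Polynomial.eval_mul, Polynomial.eval_C, Polynomial.eval_X,
      quadraticChar_eq_pow_of_char_ne_two' h3, ZMod.card, mul_comm (m : ZMod p)]
  have hsub : ((range p).filter (fun m => p ∣ points p f m)).image (fun m : ℕ => (m : ZMod p)) ⊆ Q.roots.toFinset := by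
    intro z hz
    rw [mem_image] at hz
    obtain ⟨m, hm, rfl⟩ := hz
    rw [mem_filter] at hm
    rw [Multiset.mem_toFinset, Polynomial.mem_roots hQ0, Polynomial.IsRoot.def, ← hev, ZMod.natCast_eq_zero_iff]
    exact hm.2
  have hinj : Set.InjOn (fun m : ℕ => (m : ZMod p)) ((range p).filter (fun m => p ∣ points p f m)) := by
    intro m hm m' hm' h
    rw [mem_coe, mem_filter, mem_range] at hm hm'
    have h5 := congrArg ZMod.val h
    simp only at h5
    rwa [ZMod.val_cast_of_lt hm.1, ZMod.val_cast_of_lt hm'.1] at h5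
  rw [← card_image_of_injOn hinj]
  exact (card_le_card hsub).trans ((Multiset.toFinset_card_le _).trans ((Polynomial.card_roots' Q).trans hdeg))

end

lemma points_mod (p : ℕ) {n : ℕ} (f : MvPolynomial (Fin n) ℤ) (m : ℕ) : points p f m = points p f (m % p) := by
  unfold points
  rw [ZMod.natCast_mod]

/-- the proportion of the good residue vectors -/
lemma pr_ge (d p : ℕ) (hp : p.Prime) (h2 : p ≠ 2) (f : Fin d → (Σ n : ℕ, MvPolynomial (Fin (n + 1)) ℤ)) :
    (1 / 2 : ℝ) ^ d ≤ Pool.Agent.TH894.NE.Pr d p (fun m => ∀ l, ¬ p ∣ points p (f l).2 (m l)) := by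
  classical
  have hf : Fact p.Prime := ⟨hp⟩
  have hp0 : (0 : ℝ) < p := by exact_mod_cast hp.pos
  have e : Pool.Agent.TH894.NE.Pr d p (fun m => ∀ l, ¬ p ∣ points p (f l).2 (m l)) =
      (((Fintype.piFinset (fun _ : Fin d => range p)).filter (fun m => ∀ l, ¬ p ∣ points p (f l).2 (m l))).card : ℝ) / (p : ℝ) ^ d := by
    unfold Pool.Agent.TH894.NE.Pr Pool.Agent.TH894.NE.box
    congr!
  have e2 : (Fintype.piFinset (fun _ : Fin d => range p)).filter (fun m => ∀ l, ¬ p ∣ points p (f l).2 (m l)) =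
      Fintype.piFinset (fun l : Fin d => (range p).filter (fun a => ¬ p ∣ points p (f l).2 a)) := by
    ext m
    simp only [mem_filter, Fintype.mem_piFinset]
    exact forall_and.symm
  rw [e, e2, Fintype.card_piFinset, le_div_iff₀ (pow_pos hp0 d), ← mul_pow]
  push_cast
  rw [← Fin.prod_const]
  apply prod_le_prod
  · intro l _
    positivity
  · intro l _
    have h3 := bad_card (p := p) h2 (by omega : 1 ≤ (f l).1 + 1) (f l).2 (Classical.decPred _)
    have h4 : ((range p).filter (fun a => p ∣ points p (f l).2 a)).card + ((range p).filter (fun a => ¬ p ∣ points p (f l).2 a)).card = p := by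
      have := card_filter_add_card_filter_not (s := range p) (fun a => p ∣ points p (f l).2 a)
      rwa [card_range] at this
    have h5 : ((range p).filter (fun a => p ∣ points p (f l).2 a)).card ≤ p / 2 := by
      convert h3
    have h6 : p ≤ 2 * ((range p).filter (fun a => ¬ p ∣ points p (f l).2 a)).card := by omega
    have h7 : (p : ℝ) ≤ 2 * (((range p).filter (fun a => ¬ p ∣ points p (f l).2 a)).card : ℝ) := by exact_mod_cast h6
    linarith

open Classical in
/-- **Bijective Frobenius on the top cohomology of products.** Let a base `b ≥ 2`, `d ≥ 1`, `δ > 0` and an integer `A ≥ 0` be given. There are `c > 0` and `y₀` such that for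
all integers `r_l`, `K_l` (`l = 1, ..., d`), `y` with `2 r_l ≤ K_l` and `y ≥ y₀` the following holds.

Let `0 ≤ N_l < b ^ K_l` be arbitrary integers, prescribe for every position `j` a digit `g l j` different from the digit of
`N_l` in base `b`, and let `Λ x` be for every `x` any set of at most `x ^ A` systems `(f_1, ..., f_d; P)` of polynomials `f_l` with integral coefficients in any numbers `n_l + 1` of variables and a
set `P` of integers (for instance of the primes up to `x` in an arithmetic progression).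
If one chooses `r_l` of the `K_l` positions and replaces the digits of `N_l` at these positions, then for all but at most a proportion
`1 / y ^ A` of the choices the vector `m` obtained has the following property: for all integers `x` with
`y ≤ x ≤ exp (c r_l)` for all `l` and all `(f; P) ∈ Λ x` the number of the odd primes `p ≤ x` in `P` which for no `l` divide the number of the solutions modulo `p` of
`w ^ 2 = f_l (x_0, ..., x_(n_l)) + m_l (x_0 ⋯ x_(n_l)) ^ 2` is at least `2 ^ (-d)` times the number of all odd primes `p ≤ x` in `P`, up to an error of at most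
`x ^ (1 / 2 + δ)`. -/
theorem result (b d : ℕ) (hb : 2 ≤ b) (hd : 1 ≤ d) (δ : ℝ) (hδ : 0 < δ) (A : ℕ) :
    ∃ c : ℝ, 0 < c ∧ ∃ y₀ : ℕ,
    ∀ (K r : Fin d → ℕ) (y : ℕ), (∀ l, 2 * r l ≤ K l) → y₀ ≤ y →
    ∀ N : Fin d → ℕ, (∀ l, N l < b ^ K l) → ∀ g : Fin d → ℕ → ℕ, (∀ l j, g l j < b ∧ g l j ≠ digit b j (N l)) →
    ∀ (Λ : ℕ → Finset ((Fin d → (Σ n : ℕ, MvPolynomial (Fin (n + 1)) ℤ)) × Finset ℕ)), (∀ x, (Λ x).card ≤ x ^ A) →
      (exceptions b K r N g (fun m => ∀ x : ℕ, y ≤ x → (∀ l, (x : ℝ) ≤ Real.exp (c * r l)) → ∀ q ∈ Λ x,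
        (1 / 2 : ℝ) ^ d * (((range (x + 1)).filter (fun p => p ∈ q.2 ∧ p.Prime ∧ p ≠ 2)).card : ℝ) - (x : ℝ) ^ (1 / 2 + δ) ≤
          ((range (x + 1)).filter (fun p => (p ∈ q.2 ∧ p.Prime ∧ p ≠ 2) ∧ ∀ l, ¬ p ∣ points p (q.1 l).2 (m l))).card) : ℝ) ≤
        1 / (y : ℝ) ^ A * ∏ l, ((K l).choose (r l) : ℝ) := by
  obtain ⟨c, hc, x₀, h⟩ := Pool.Agent.TH894.NE.law2 b d hb hd δ A A hδ
  refine ⟨c, hc, x₀ + 3, fun K r y hrK hy N hN g hg Λ hΛ => ?_⟩
  have hy0 : (0 : ℝ) < y := by exact_mod_cast (by omega : 0 < y)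
  have h1 : 1 / (y : ℝ) ^ A = (y : ℝ) ^ (-(A : ℝ)) := by
    rw [Real.rpow_neg hy0.le, Real.rpow_natCast, one_div]
  rw [h1]
  unfold exceptions
  refine h r K y hrK (by omega) N hN g hg ((Fin d → (Σ n : ℕ, MvPolynomial (Fin (n + 1)) ℤ)) × Finset ℕ) Λ ?_ ℕ
    (fun x q => (range (x + 1)).filter (fun p => p ∈ q.2 ∧ p.Prime ∧ p ≠ 2)) (fun _ p => p) ?_ ?_
    (fun q p m => ∀ l, ¬ p ∣ points p (q.1 l).2 (m l)) ?_ _ (filter_subset _ _) ?_
  · intro x _
    rw [Real.rpow_natCast]
    exact_mod_cast hΛ x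
  · intro x l _ p hp
    rw [mem_filter, mem_range] at hp
    exact ⟨hp.2.2.1.one_lt.le, by omega⟩
  · intro x l _ p hp p' hp' hne
    rw [mem_filter] at hp hp'
    exact (Nat.coprime_primes hp.2.2.1 hp'.2.2.1).2 hne
  · intro x q _ p _ m
    refine forall_congr' fun l => ?_
    rw [points_mod p (q.1 l).2 (m l)]
  · intro T hT
    rw [mem_filter] at hT
    obtain ⟨_, hT2⟩ := hT
    push Not at hT2
    obtain ⟨x, hyx, hxr, q, hq, hlt⟩ := hT2
    have hx0 : (0 : ℝ) < x := by exact_mod_cast (by omega : 0 < x)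
    have hx1 : (1 : ℝ) ≤ x := by exact_mod_cast (by omega : 1 ≤ x)
    obtain ⟨I, hI⟩ : ∃ I, I = (range (x + 1)).filter (fun p => p ∈ q.2 ∧ p.Prime ∧ p ≠ 2) := ⟨_, rfl⟩
    obtain ⟨V, hV⟩ : ∃ V : ℝ, V = ∑ p ∈ I, Pool.Agent.TH894.NE.Pr d p (fun m => ∀ l, ¬ p ∣ points p (q.1 l).2 (m l)) := ⟨_, rfl⟩
    have hVge : (1 / 2 : ℝ) ^ d * (I.card : ℝ) ≤ V := by
      rw [hV, mul_comm, ← nsmul_eq_mul, ← sum_const]
      apply sum_le_sum
      intro p hp
      rw [hI, mem_filter] at hp
      exact pr_ge d p hp.2.2.1 hp.2.2.2 q.1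
    have hIx : (I.card : ℝ) ≤ x := by
      have : I.card ≤ (Icc 1 x).card := by
        apply card_le_card
        intro p hp
        rw [hI, mem_filter, mem_range] at hp
        rw [mem_Icc]
        exact ⟨hp.2.2.1.one_lt.le, by omega⟩
      rw [Nat.card_Icc, Nat.add_sub_cancel] at this
      exact_mod_cast this
    have hVle : V ≤ x := by
      refine le_trans ?_ hIx
      rw [hV]
      refine (sum_le_sum (fun p _ => Pool.Agent.TH894.NE.Pr_le_one d p _)).trans ?_
      rw [sum_const, nsmul_eq_mul, mul_one]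
    refine ⟨x, hyx, fun l => (Real.log_le_iff_le_exp hx0).2 (hxr l), q, hq, ?_⟩
    show Real.sqrt (max 1 (∑ p ∈ (range (x + 1)).filter (fun p => p ∈ q.2 ∧ p.Prime ∧ p ≠ 2),
      Pool.Agent.TH894.NE.Pr d p (fun m => ∀ l, ¬ p ∣ points p (q.1 l).2 (m l)))) * (x : ℝ) ^ δ < |_ - _|
    rw [← hI, ← hV]
    have hs : Real.sqrt (max 1 V) * (x : ℝ) ^ δ ≤ (x : ℝ) ^ (1 / 2 + δ) := by
      rw [Real.rpow_add hx0, ← Real.sqrt_eq_rpow]
      apply mul_le_mul_of_nonneg_right _ (by positivity)
      exact Real.sqrt_le_sqrt (max_le hx1 hVle)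
    have hcount : ((range (x + 1)).filter (fun p => (p ∈ q.2 ∧ p.Prime ∧ p ≠ 2) ∧
        ∀ l, ¬ p ∣ points p (q.1 l).2 ((fun l => change b (K l) (N l) (g l) (T l)) l))).card =
        (I.filter (fun p => ∀ l, ¬ p ∣ points p (q.1 l).2 (change b (K l) (N l) (g l) (T l)))).card := by
      rw [hI, filter_filter]
    rw [hcount, ← hI] at hlt
    refine lt_of_lt_of_le ?_ (neg_le_abs _)
    refine lt_of_le_of_lt hs ?_
    have h9 : (((I.filter (fun p => ∀ l, ¬ p ∣ points p (q.1 l).2 (change b (K l) (N l) (g l) (T l)))).card : ℕ) : ℝ) <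
        V - (x : ℝ) ^ (1 / 2 + δ) := by linarith
    have h10 : (x : ℝ) ^ (1 / 2 + δ) < -((((I.filter (fun p => ∀ l, ¬ p ∣ points p (q.1 l).2 (change b (K l) (N l) (g l) (T l)))).card : ℕ) : ℝ) - V) := by
      linarith
    have h11 : ∀ (D1 D2 : DecidablePred fun p => ∀ l, ¬ p ∣ points p (q.1 l).2 (change b (K l) (N l) (g l) (T l))),
        @Finset.filter ℕ (fun p => ∀ l, ¬ p ∣ points p (q.1 l).2 (change b (K l) (N l) (g l) (T l))) D1 I =
        @Finset.filter ℕ (fun p => ∀ l, ¬ p ∣ points p (q.1 l).2 (change b (K l) (N l) (g l) (T l))) D2 I := by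
      intro D1 D2
      congr!
    refine h10.trans_eq ?_
    rw [h11 _ (fun _ => Classical.propDecidable _)]
    rfl

end Pool.Agent.Results.MP_44c6a0_ag.FewDigitProducts
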