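import Pool.Agent.Results.MP_44c6a0_ag.FewDigitProducts
import Pool.Agent.X174.DigitWin

/-!
# Bijective Frobenius on the top cohomology of products of Calabi–Yau double covers, for ALL parameters in cubes

**Theorem.** Let `d ≥ 1`, `A ≥ 0`, `δ > 0`. There is `c > 0` such that the following holds for every family which assigns to
every `x` at most `x ^ A` systems `(f_1, …, f_d; P)` of polynomials `f_l` over `ℤ` in `n_l + 1` variables and a finite set `P` of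
integers, every `ξ > 0` with `ξ A ≤ d`, every sequence `v ≥ 1` of exponent of convergence at most `τ` (for `v_i = (i + 1) ^ b`
this is `1 / b`, for `v_i = b ^ i` it is `0`) and every `ρ < 1`: there is a set `E ⊂ ℝ ^ d` of Hausdorff dimension at most
`(d - ξ A + τ) / (1 - ρ)` such that for each `x ∈ ℝ ^ d` outside `E` there is `i₀` such that for ALL `m ∈ ℕ ^ d` with
`|m_l - x_l v_i| ≤ v_i ^ ρ` for some `i ≥ i₀`, all integers `X` with `v_i ^ ξ ≤ X ≤ v_i ^ c` and all systems belonging to `X`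
the number of the odd primes `p ≤ X` in `P` which for every `l` do not divide the number of the solutions modulo `p` of
`w ^ 2 = f_l + m_l (x_0 ⋯ x_(n_l)) ^ 2` is at least `2 ^ (-d)` times the number of the odd primes `p ≤ X` in `P`, minus
`X ^ (1 / 2 + δ)`.

The numbers of the exceptional `m` come from the result `FewDigitProducts` on the digits of the `m_l`.
-/

set_option autoImplicit false

open Finset MvPolynomial

namespace Pool.Agent.Results.MP_44c6a0_ag.ProductsInCubes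

open FewDigitProducts (points exceptions change)

/-- the exponent of convergence of the sequence `v` is at most `τ` -/
def ExpLe (v : ℕ → ℝ) (τ : ℝ) : Prop := ∀ t : ℝ, τ < t → Summable (fun n : ℕ => (v n) ^ (-t))

lemma exc_spec {d : ℕ} (b : ℕ) (K s N : Fin d → ℕ) (f : Fin d → ℕ → ℕ) (E : (Fin d → ℕ) → Prop) :
    ∃ W : Finset (Fin d → Finset ℕ), W.card = exceptions b K s N f E ∧
      ∀ S ∈ Fintype.piFinset (fun l => powersetCard (s l) (range (K l))), S ∉ W →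
        E (fun l => change b (K l) (N l) (f l) (S l)) := by
  classical
  refine ⟨_, rfl, fun S hS hSW => ?_⟩
  by_contra h
  exact hSW (mem_filter.2 ⟨hS, h⟩)

open Classical in
/-- **Bijective Frobenius, all parameters in cubes.** For `d ≥ 1`, `A ≥ 0` and `δ > 0` there is `c > 0` such that for every
family which assigns to every `x` at most `x ^ A` systems `(f_1, …, f_d; P)`, every `ξ > 0` with `ξ A ≤ d`, every sequence
`v ≥ 1` of exponent of convergence at most `τ ≥ 0` and every `ρ < 1` there is a set `E ⊂ ℝ ^ d` of Hausdorff dimension at most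
`(d - ξ A + τ) / (1 - ρ)` such that for each `x` outside `E` there is `i₀` such that for all `i ≥ i₀`, all `m ∈ ℕ ^ d` with
`|m_l - x_l v_i| ≤ v_i ^ ρ`, all integers `X` with `v_i ^ ξ ≤ X ≤ v_i ^ c` and all systems of `X` the number of the odd primes
`p ≤ X` in `P` which for every `l` do not divide the number of the solutions modulo `p` of
`w ^ 2 = f_l + m_l (x_0 ⋯ x_(n_l)) ^ 2` is at least `2 ^ (-d)` times the number of the odd primes `p ≤ X` in `P`, minus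
`X ^ (1 / 2 + δ)`. The sequences `v_i = (i + 1) ^ b` and `v_i = b ^ i` have exponent of convergence at most `1 / b` and `0`. -/
theorem result :
    (∀ (d : ℕ), 1 ≤ d → ∀ δ : ℝ, 0 < δ → ∀ A : ℕ, ∃ c : ℝ, 0 < c ∧
      ∀ (Λ : ℕ → Finset ((Fin d → (Σ n : ℕ, MvPolynomial (Fin (n + 1)) ℤ)) × Finset ℕ)),
      (∀ x, (Λ x).card ≤ x ^ A) →
      ∀ ξ : ℝ, 0 < ξ → ξ * A ≤ d → ∀ (v : ℕ → ℝ) (τ ρ : ℝ), (∀ i, 1 ≤ v i) → 0 ≤ τ → ExpLe v τ → ρ < 1 →
      ∃ E : Set (Fin d → ℝ), dimH E ≤ ENNReal.ofReal ((d - ξ * A + τ) / (1 - ρ)) ∧ ∀ x : Fin d → ℝ, x ∉ E →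
        ∃ i₀ : ℕ, ∀ i : ℕ, i₀ ≤ i → ∀ m : Fin d → ℕ, (∀ l, |(m l : ℝ) - x l * v i| ≤ (v i) ^ ρ) →
          ∀ X : ℕ, (v i) ^ ξ ≤ X → (X : ℝ) ≤ (v i) ^ c → ∀ q ∈ Λ X,
            (1 / 2 : ℝ) ^ d * (((range (X + 1)).filter (fun p => p ∈ q.2 ∧ p.Prime ∧ p ≠ 2)).card : ℝ) -
                (X : ℝ) ^ (1 / 2 + δ) ≤
              ((range (X + 1)).filter (fun p => (p ∈ q.2 ∧ p.Prime ∧ p ≠ 2) ∧
                ∀ l, ¬ p ∣ points p (q.1 l).2 (m l))).card) ∧
    (∀ b : ℝ, 0 < b → ExpLe (fun n : ℕ => ((n : ℝ) + 1) ^ b) (1 / b)) ∧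
    (∀ b : ℝ, 1 < b → ExpLe (fun n : ℕ => b ^ n) 0) := by
  refine ⟨fun d hd δ hδ A => ?_, fun κ hκ => Pool.Agent.Y854.GM.expLe_pow κ hκ,
    fun b hb => Pool.Agent.Y854.GM.expLe_geom b hb⟩
  obtain ⟨c, hc, y₀, h⟩ := FewDigitProducts.result 2 d le_rfl hd δ hδ A
  refine ⟨c / 4, by positivity, ?_⟩
  intro Λ hΛ ξ hξ hξA v τ ρ hv hτ hE hρ
  obtain ⟨E, h1, h2⟩ := Pool.Agent.X174.digitWin (d := d) (c := c) hc y₀ A
    (fun X m => ∀ q ∈ Λ X,
            (1 / 2 : ℝ) ^ d * (((range (X + 1)).filter (fun p => p ∈ q.2 ∧ p.Prime ∧ p ≠ 2)).card : ℝ) -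
                (X : ℝ) ^ (1 / 2 + δ) ≤
              ((range (X + 1)).filter (fun p => (p ∈ q.2 ∧ p.Prime ∧ p ≠ 2) ∧
                ∀ l, ¬ p ∣ points p (q.1 l).2 (m l))).card) (by
      intro K r y hrK hy N hN f hf
      have h3 := h K r y hrK hy N hN f hf Λ hΛ
      obtain ⟨W, hW1, hW2⟩ := exc_spec 2 K r N f (fun m => ∀ x : ℕ, y ≤ x → (∀ l, (x : ℝ) ≤ Real.exp (c * r l)) → ∀ q ∈ Λ x,
        (1 / 2 : ℝ) ^ d * (((range (x + 1)).filter (fun p => p ∈ q.2 ∧ p.Prime ∧ p ≠ 2)).card : ℝ) - (x : ℝ) ^ (1 / 2 + δ) ≤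
          ((range (x + 1)).filter (fun p => (p ∈ q.2 ∧ p.Prime ∧ p ≠ 2) ∧ ∀ l, ¬ p ∣ points p (q.1 l).2 (m l))).card)
      have h4 : (W.card : ℝ) ≤ 1 / (y : ℝ) ^ A * ∏ l, ((K l).choose (r l) : ℝ) := by
        rw [hW1]
        convert h3 using 3
      exact ⟨W, h4, fun S hS hSW x hyx hxr => hW2 S hS hSW x hyx hxr⟩)
    hξ hξA hv hτ hE hρ
  refine ⟨E, h1, fun x hx => ?_⟩
  obtain ⟨i₀, hi₀⟩ := h2 x hx
  exact ⟨i₀, fun i hi m hm X hX1 hX2 => hi₀ i hi m hm X hX1 hX2⟩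

end Pool.Agent.Results.MP_44c6a0_ag.ProductsInCubes
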